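import Pool.Agent.KS6_71.AP.Defs

/-!
# A finite additive poset has a rank iff its points are separated by characters
-/

open Finset

namespace Pool.Agent.KS6_71.AP

variable {A : Type*} [AddCommGroup A] [PartialOrder A]

lemma two_eq_zero (h : IsAdditivePoset A) (a : A) : a + a = 0 := by
  have h1 : a + a ≤ a := h.add_le a a a le_rfl le_rfl
  have h2 : a + a + a ≤ a := h.add_le a (a + a) a h1 le_rfl
  have h3 : a ≤ a + a + a := h.le_add a a a le_rfl le_rfl
  have h4 : a + a + a = a := le_antisymm h2 h3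
  have h5 : (a + a) + a = 0 + a := by rw [h4, zero_add]
  exact add_right_cancel h5

lemma zero_le' (h : IsAdditivePoset A) (a : A) : 0 ≤ a := by
  have h1 : a + a ≤ a := h.add_le a a a le_rfl le_rfl
  rwa [two_eq_zero h] at h1

lemma indep_symm (h : IsAdditivePoset A) {a b : A} (hab : Indep a b) : Indep b a := by
  unfold Indep at *
  -- `b = a + (a + b) ≤ a + b`
  have h1 := h.add_le (a + b) a (a + b) hab le_rfl
  have e : a + (a + b) = b := by rw [← add_assoc, two_eq_zero h, zero_add]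
  rw [e] at h1
  rwa [add_comm b a]

/-- a character: an order preserving homomorphism to `{0, 1}` -/
def IsChar (χ : A →+ ZMod 2) : Prop := ∀ b c, Indep b c → ¬ (χ b = 1 ∧ χ c = 1)

/-- the points are separated by characters -/
def Separated (A : Type*) [AddCommGroup A] [PartialOrder A] : Prop :=
  ∀ a : A, a ≠ 0 → ∃ χ : A →+ ZMod 2, IsChar χ ∧ χ a = 1

/-- the sign -/
def sg (x : ZMod 2) : ℤ := if x = 0 then 1 else -1

lemma sg_zero : sg 0 = 1 := rfl

lemma sg_one : sg 1 = -1 := rfl

lemma sg_add : ∀ x y : ZMod 2, sg (x + y) = sg x * sg y := by decide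

lemma sg_natCast (n : ℕ) : sg (n : ZMod 2) = (-1) ^ n := by
  induction n with
  | zero => simp [sg]
  | succ n ih =>
    push_cast
    rw [sg_add, ih, sg_one, pow_succ]

lemma zmod2_cases (x : ZMod 2) : x = 0 ∨ x = 1 := by
  revert x
  decide

lemma exists_hom (h : IsAdditivePoset A) (a : A) (ha : a ≠ 0) :
    ∃ χ : A →+ ZMod 2, χ a = 1 := by
  let _ : Module (ZMod 2) A := AddCommGroup.zmodModule fun x => by
    rw [two_nsmul]
    exact two_eq_zero h x
  by_contra hcon
  push Not at hcon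
  apply ha
  rw [← Module.forall_dual_apply_eq_zero_iff (ZMod 2)]
  intro f
  rcases zmod2_cases (f a) with h1 | h1
  · exact h1
  · exact absurd h1 (hcon f.toAddMonoidHom)

lemma sum_symmDiff' [DecidableEq A] (h : IsAdditivePoset A) (J K : Finset A) :
    ∑ a ∈ symmDiff J K, a = ∑ a ∈ J, a + ∑ a ∈ K, a := by
  have h1 : symmDiff J K = (J \ K) ∪ (K \ J) := rfl
  rw [h1, Finset.sum_union disjoint_sdiff_sdiff]
  have e1 := Finset.sum_inter_add_sum_sdiff J K (fun a => a)
  have e2 := Finset.sum_inter_add_sum_sdiff K J (fun a => a)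
  rw [Finset.inter_comm K J] at e2
  rw [← e1, ← e2]
  have := two_eq_zero h (∑ a ∈ J ∩ K, a)
  calc ∑ a ∈ J \ K, a + ∑ a ∈ K \ J, a
      = (∑ a ∈ J \ K, a + ∑ a ∈ K \ J, a) + 0 := by rw [add_zero]
    _ = (∑ a ∈ J \ K, a + ∑ a ∈ K \ J, a) + (∑ a ∈ J ∩ K, a + ∑ a ∈ J ∩ K, a) := by rw [this]
    _ = _ := by abel

/-! ### From a rank to characters -/

lemma hom_sum (χ : A →+ ZMod 2) (J : Finset A) (hJ : ∀ a ∈ J, χ a = 1) :
    χ (∑ a ∈ J, a) = (J.card : ZMod 2) := by
  rw [map_sum, Finset.sum_congr rfl hJ]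
  simp

variable [Fintype A] [DecidableEq A]

/-- the number of subsets of `K` with sum `x` -/
def cnt (K : Finset A) (x : A) : ℕ := (K.powerset.filter fun J => ∑ a ∈ J, a = x).card

lemma cnt_eq (h : IsAdditivePoset A) (K : Finset A) (x : A) (J0 : Finset A) (hJ0 : J0 ⊆ K)
    (hs : ∑ a ∈ J0, a = x) : cnt K x = cnt K 0 := by
  unfold cnt
  apply Finset.card_nbij' (fun J => symmDiff J J0) (fun J => symmDiff J J0)
  · intro J hJ
    simp only [Finset.coe_filter, Finset.mem_powerset, Set.mem_ofPred_eq] at hJ ⊢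
    refine ⟨?_, ?_⟩
    · intro y hy
      rw [Finset.mem_symmDiff] at hy
      rcases hy with hy | hy
      · exact hJ.1 hy.1
      · exact hJ0 hy.1
    · rw [sum_symmDiff' h, hJ.2, hs, two_eq_zero h]
  · intro J hJ
    simp only [Finset.coe_filter, Finset.mem_powerset, Set.mem_ofPred_eq] at hJ ⊢
    refine ⟨?_, ?_⟩
    · intro y hy
      rw [Finset.mem_symmDiff] at hy
      rcases hy with hy | hy
      · exact hJ.1 hy.1
      · exact hJ0 hy.1
    · rw [sum_symmDiff' h, hJ.2, hs, zero_add]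
  · intro J _
    simp only
    rw [symmDiff_symmDiff_cancel_right]
  · intro J _
    simp only
    rw [symmDiff_symmDiff_cancel_right]

lemma exists_sum (h : IsAdditivePoset A) (χ : A →+ ZMod 2) (hχ : χ ≠ 0) (x : A) :
    ∃ J ⊆ (univ.filter fun a : A => χ a = 1), ∑ a ∈ J, a = x := by
  rcases zmod2_cases (χ x) with hx | hx
  · by_cases hx0 : x = 0
    · exact ⟨∅, Finset.empty_subset _, by simp [hx0]⟩
    · obtain ⟨k, hk⟩ : ∃ k, χ k = 1 := by
        by_contra hcon
        push Not at hcon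
        apply hχ
        ext k
        rcases zmod2_cases (χ k) with h1 | h1
        · simpa using h1
        · exact absurd h1 (hcon k)
      refine ⟨{x + k, k}, ?_, ?_⟩
      · intro y hy
        simp only [Finset.mem_insert, Finset.mem_singleton] at hy
        simp only [Finset.mem_filter, Finset.mem_univ, true_and]
        rcases hy with rfl | rfl
        · rw [map_add, hx, hk, zero_add]
        · exact hk
      · rw [Finset.sum_pair]
        · rw [add_assoc, two_eq_zero h, add_zero]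
        · intro he
          apply hx0
          have : x + k = 0 + k := by rw [he, zero_add]
          exact add_right_cancel this
  · exact ⟨{x}, by simpa using hx, by simp⟩

/-- the weight of a homomorphism -/
def wt (r : A → ℕ) (χ : A →+ ZMod 2) : ℤ := - ∑ x : A, sg (χ x) * (r x : ℤ)

lemma wt_nonneg (h : IsAdditivePoset A) (r : A → ℕ) (hr : IsRank r) (χ : A →+ ZMod 2)
    (hχ : χ ≠ 0) : 0 ≤ wt r χ := by
  set K := univ.filter fun a : A => χ a = 1 with hK
  have hKne : K.Nonempty := by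
    by_contra hcon
    rw [Finset.not_nonempty_iff_eq_empty] at hcon
    apply hχ
    ext k
    rcases zmod2_cases (χ k) with h1 | h1
    · simpa using h1
    · exfalso
      have : k ∈ K := by simp [hK, h1]
      rw [hcon] at this
      simp at this
  have h1 := hr.nonneg K hKne
  have h2 : ∑ J ∈ K.powerset with J.Nonempty,
      (-1 : ℤ) ^ (J.card + 1) * (r (∑ a ∈ J, a) : ℤ)
      = ∑ J ∈ K.powerset, (-1 : ℤ) ^ (J.card + 1) * (r (∑ a ∈ J, a) : ℤ) := by
    apply Finset.sum_subset (Finset.filter_subset _ _)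
    intro J hJ hJ2
    have : J = ∅ := by
      by_contra hne
      exact hJ2 (Finset.mem_filter.2 ⟨hJ, Finset.nonempty_iff_ne_empty.2 hne⟩)
    subst this
    simp [(hr.zero_iff 0).2 rfl]
  have h3 : ∑ J ∈ K.powerset, (-1 : ℤ) ^ (J.card + 1) * (r (∑ a ∈ J, a) : ℤ)
      = ∑ x : A, ∑ J ∈ K.powerset with ∑ a ∈ J, a = x,
        (-1 : ℤ) ^ (J.card + 1) * (r (∑ a ∈ J, a) : ℤ) := by
    rw [Finset.sum_fiberwise]
  have h4 : ∀ x : A, ∑ J ∈ K.powerset with ∑ a ∈ J, a = x,
        (-1 : ℤ) ^ (J.card + 1) * (r (∑ a ∈ J, a) : ℤ)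
      = (cnt K 0 : ℤ) * (-(sg (χ x) * (r x : ℤ))) := by
    intro x
    obtain ⟨J0, hJ0, hs⟩ := exists_sum h χ hχ x
    rw [← cnt_eq h K x J0 hJ0 hs]
    unfold cnt
    rw [← nsmul_eq_mul]
    apply Finset.sum_eq_card_nsmul
    intro J hJ
    rw [Finset.mem_filter, Finset.mem_powerset] at hJ
    rw [hJ.2]
    have h5 : χ x = (J.card : ZMod 2) := by
      rw [← hJ.2]
      apply hom_sum
      intro a ha
      have := hJ.1 ha
      rw [hK, Finset.mem_filter] at this
      exact this.2
    rw [h5, sg_natCast]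
    ring
  rw [h2, h3, Finset.sum_congr rfl (fun x _ => h4 x), ← Finset.mul_sum] at h1
  have h5 : (0 : ℤ) < cnt K 0 := by
    have : 0 < cnt K 0 := by
      unfold cnt
      apply Finset.card_pos.2
      exact ⟨∅, by simp⟩
    exact_mod_cast this
  unfold wt
  rw [← Finset.sum_neg_distrib]
  exact nonneg_of_mul_nonneg_right h1 h5

variable [Fintype (A →+ ZMod 2)]

lemma sum_sg (h : IsAdditivePoset A) (x : A) (hx : x ≠ 0) :
    ∑ χ : A →+ ZMod 2, sg (χ x) = 0 := by
  obtain ⟨ψ, hψ⟩ := exists_hom h x hx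
  have h1 : ∑ χ : A →+ ZMod 2, sg (χ x) = ∑ χ : A →+ ZMod 2, sg ((χ + ψ) x) := by
    apply (Fintype.sum_equiv (Equiv.addRight ψ) _ _ _).symm
    intro χ
    rfl
  have h2 : ∀ χ : A →+ ZMod 2, sg ((χ + ψ) x) = - sg (χ x) := by
    intro χ
    rw [AddMonoidHom.add_apply, hψ, sg_add, sg_one]
    ring
  rw [Finset.sum_congr rfl (fun χ _ => h2 χ), Finset.sum_neg_distrib] at h1
  omega

lemma sum_sg' (h : IsAdditivePoset A) (x : A) :
    ∑ χ : A →+ ZMod 2, sg (χ x) = if x = 0 then (Fintype.card (A →+ ZMod 2) : ℤ) else 0 := by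
  split_ifs with hx
  · subst hx
    simp [sg_zero, Finset.card_univ]
  · exact sum_sg h x hx

lemma sum_wt (h : IsAdditivePoset A) (r : A → ℕ) (hr : IsRank r) (a : A) :
    ∑ χ : A →+ ZMod 2, wt r χ * (1 - sg (χ a))
      = (Fintype.card (A →+ ZMod 2) : ℤ) * (r a : ℤ) := by
  have h1 : ∀ χ : A →+ ZMod 2, wt r χ * (1 - sg (χ a))
      = ∑ x : A, (r x : ℤ) * (sg (χ (x + a)) - sg (χ x)) := by
    intro χ
    unfold wt
    rw [neg_mul, Finset.sum_mul, ← Finset.sum_neg_distrib]
    apply Finset.sum_congr rfl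
    intro x _
    rw [map_add, sg_add]
    ring
  rw [Finset.sum_congr rfl (fun χ _ => h1 χ), Finset.sum_comm]
  have h2 : ∀ x : A, ∑ χ : A →+ ZMod 2, (r x : ℤ) * (sg (χ (x + a)) - sg (χ x))
      = (r x : ℤ) * ((if x = a then (Fintype.card (A →+ ZMod 2) : ℤ) else 0)
        - (if x = 0 then (Fintype.card (A →+ ZMod 2) : ℤ) else 0)) := by
    intro x
    rw [← Finset.mul_sum, Finset.sum_sub_distrib, sum_sg' h, sum_sg' h]
    have : (x + a = 0) ↔ x = a := by
      constructor
      · intro he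
        have : x + a = a + a := by rw [he, two_eq_zero h]
        exact add_right_cancel this
      · intro he
        rw [he, two_eq_zero h]
    simp only [this]
  rw [Finset.sum_congr rfl (fun x _ => h2 x)]
  simp only [mul_sub, Finset.sum_sub_distrib, mul_ite, mul_zero, Finset.sum_ite_eq',
    Finset.mem_univ, if_true]
  rw [(hr.zero_iff 0).2 rfl]
  push_cast
  ring

omit [PartialOrder A] [Fintype A] [DecidableEq A] [Fintype (A →+ ZMod 2)] in
lemma one_sub_sg_nonneg (x : ZMod 2) : 0 ≤ 1 - sg x := by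
  rcases zmod2_cases x with h | h <;> rw [h] <;> decide

/-- a rank gives enough characters -/
theorem separated_of_rank (h : IsAdditivePoset A) (r : A → ℕ) (hr : IsRank r) :
    Separated A := by
  intro a ha
  have hc : (0 : ℤ) < (Fintype.card (A →+ ZMod 2) : ℤ) := by
    have : 0 < Fintype.card (A →+ ZMod 2) := Fintype.card_pos
    exact_mod_cast this
  have hra : (0 : ℤ) < (r a : ℤ) := by
    have : r a ≠ 0 := fun he => ha ((hr.zero_iff a).1 he)
    omega
  have h1 := sum_wt h r hr a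
  have h2 : ∑ χ : A →+ ZMod 2, wt r χ * (1 - sg (χ a)) ≠ 0 := by
    rw [h1]
    positivity
  obtain ⟨χ, _, hχ⟩ := Finset.exists_ne_zero_of_sum_ne_zero h2
  have hw : wt r χ ≠ 0 := fun he => hχ (by rw [he, zero_mul])
  have hs : χ a = 1 := by
    rcases zmod2_cases (χ a) with h3 | h3
    · exact absurd (by rw [h3, sg_zero, sub_self, mul_zero]) hχ
    · exact h3
  refine ⟨χ, ?_, hs⟩
  intro b c hbc hcon
  have h3 : ∑ χ : A →+ ZMod 2, wt r χ * (1 - sg (χ b)) * (1 - sg (χ c)) = 0 := by
    have h4 : ∀ χ : A →+ ZMod 2, wt r χ * (1 - sg (χ b)) * (1 - sg (χ c))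
        = wt r χ * (1 - sg (χ b)) + wt r χ * (1 - sg (χ c)) - wt r χ * (1 - sg (χ (b + c))) := by
      intro χ
      rw [map_add, sg_add]
      ring
    rw [Finset.sum_congr rfl (fun χ _ => h4 χ), Finset.sum_sub_distrib, Finset.sum_add_distrib,
      sum_wt h r hr, sum_wt h r hr, sum_wt h r hr, hr.add b c hbc]
    push_cast
    ring
  have h5 : ∀ χ ∈ (univ : Finset (A →+ ZMod 2)),
      0 ≤ wt r χ * (1 - sg (χ b)) * (1 - sg (χ c)) := by
    intro χ _
    by_cases h0 : χ = 0
    · subst h0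
      simp [sg_zero]
    · exact mul_nonneg (mul_nonneg (wt_nonneg h r hr χ h0) (one_sub_sg_nonneg _))
        (one_sub_sg_nonneg _)
  have h6 := (Finset.sum_eq_zero_iff_of_nonneg h5).1 h3 χ (Finset.mem_univ _)
  rw [hcon.1, hcon.2, sg_one] at h6
  apply hw
  omega

/-! ### From characters to a rank -/

open Classical in
/-- the number of characters with `χ a = 1` -/
noncomputable def chRank (A : Type*) [AddCommGroup A] [PartialOrder A] [Fintype (A →+ ZMod 2)]
    (a : A) : ℕ :=
  ((univ : Finset (A →+ ZMod 2)).filter fun χ => IsChar χ ∧ χ a = 1).card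

omit [PartialOrder A] [Fintype A] [DecidableEq A] [Fintype (A →+ ZMod 2)] in
lemma two_mul_ite (y : ZMod 2) : 2 * (if y = 1 then (1 : ℤ) else 0) = 1 - sg y := by
  rcases zmod2_cases y with h | h <;> rw [h] <;> decide

omit [PartialOrder A] [Fintype A] [DecidableEq A] [Fintype (A →+ ZMod 2)] in
lemma sg_sum (χ : A →+ ZMod 2) (J : Finset A) : sg (χ (∑ a ∈ J, a)) = ∏ a ∈ J, sg (χ a) := by
  classical
  induction J using Finset.induction_on with
  | empty => simp [sg_zero]
  | insert b J hb ih => rw [Finset.sum_insert hb, map_add, sg_add, ih, Finset.prod_insert hb]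

omit [PartialOrder A] [Fintype (A →+ ZMod 2)] in
lemma alt_sum (χ : A →+ ZMod 2) (K : Finset A) (hK : K.Nonempty) :
    ∑ J ∈ K.powerset, (-1 : ℤ) ^ (J.card + 1) * (if χ (∑ a ∈ J, a) = 1 then (1 : ℤ) else 0)
      = 2 ^ (K.card - 1) * (if ∀ a ∈ K, χ a = 1 then (1 : ℤ) else 0) := by
  have h1 : 2 * ∑ J ∈ K.powerset, (-1 : ℤ) ^ (J.card + 1) *
      (if χ (∑ a ∈ J, a) = 1 then (1 : ℤ) else 0) = ∏ a ∈ K, (1 - sg (χ a)) := by
    have h2 : ∏ a ∈ K, (1 - sg (χ a)) = ∑ J ∈ K.powerset, ∏ a ∈ J, (- sg (χ a)) := by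
      rw [← Finset.prod_one_add]
      rfl
    rw [h2, Finset.mul_sum]
    have h3 : ∑ J ∈ K.powerset, (-1 : ℤ) ^ J.card = 0 := by
      rw [Finset.sum_powerset_neg_one_pow_card]
      rw [if_neg hK.ne_empty]
    have h4 : ∀ J ∈ K.powerset, 2 * ((-1 : ℤ) ^ (J.card + 1) *
      (if χ (∑ a ∈ J, a) = 1 then (1 : ℤ) else 0))
        = ∏ a ∈ J, (- sg (χ a)) - (-1 : ℤ) ^ J.card := by
      intro J _
      have e : 2 * ((-1 : ℤ) ^ (J.card + 1) *
        (if χ (∑ a ∈ J, a) = 1 then (1 : ℤ) else 0))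
        = (-1 : ℤ) ^ (J.card + 1) * (2 * (if χ (∑ a ∈ J, a) = 1 then (1 : ℤ) else 0)) := by ring
      rw [e, two_mul_ite, sg_sum, Finset.prod_neg]
      ring
    rw [Finset.sum_congr rfl h4, Finset.sum_sub_distrib, h3, sub_zero]
  have h5 : ∏ a ∈ K, (1 - sg (χ a)) = 2 ^ K.card * (if ∀ a ∈ K, χ a = 1 then (1 : ℤ) else 0) := by
    split_ifs with hall
    · rw [Finset.prod_congr rfl (fun a ha => by rw [hall a ha, sg_one])]
      simp
    · push Not at hall
      obtain ⟨a, ha, hne⟩ := hall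
      rw [mul_zero]
      apply Finset.prod_eq_zero ha
      rcases zmod2_cases (χ a) with h | h
      · rw [h, sg_zero, sub_self]
      · exact absurd h hne
  rw [h5] at h1
  have h6 : K.card = (K.card - 1) + 1 := by
    have := hK.card_pos
    omega
  have h7 : (2 : ℤ) ^ K.card = 2 * 2 ^ (K.card - 1) := by
    conv_lhs => rw [h6]
    ring
  rw [h7, mul_assoc] at h1
  exact mul_left_cancel₀ (by norm_num) h1

theorem rank_of_separated (hsep : Separated A) : IsRank (chRank A) := by
  classical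
  have key : ∀ K : Finset A, K.Nonempty →
      ∑ J ∈ K.powerset with J.Nonempty, (-1 : ℤ) ^ (J.card + 1) * (chRank A (∑ a ∈ J, a) : ℤ)
        = 2 ^ (K.card - 1) * ∑ χ ∈ (univ : Finset (A →+ ZMod 2)).filter (fun χ => IsChar χ),
          (if ∀ a ∈ K, χ a = 1 then (1 : ℤ) else 0) := by
    intro K hK
    have h0 : chRank A 0 = 0 := by
      unfold chRank
      simp
    have h1 : ∑ J ∈ K.powerset with J.Nonempty,
        (-1 : ℤ) ^ (J.card + 1) * (chRank A (∑ a ∈ J, a) : ℤ)
        = ∑ J ∈ K.powerset, (-1 : ℤ) ^ (J.card + 1) * (chRank A (∑ a ∈ J, a) : ℤ) := by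
      apply Finset.sum_subset (Finset.filter_subset _ _)
      intro J hJ hJ2
      have : J = ∅ := by
        by_contra hne
        exact hJ2 (Finset.mem_filter.2 ⟨hJ, Finset.nonempty_iff_ne_empty.2 hne⟩)
      subst this
      simp [h0]
    have h2 : ∀ a : A, (chRank A a : ℤ)
        = ∑ χ ∈ (univ : Finset (A →+ ZMod 2)).filter (fun χ => IsChar χ),
          (if χ a = 1 then (1 : ℤ) else 0) := by
      intro a
      unfold chRank
      rw [← Finset.filter_filter, Finset.card_filter]
      push_cast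
      rfl
    rw [h1]
    simp only [h2, Finset.mul_sum]
    rw [Finset.sum_comm]
    apply Finset.sum_congr rfl
    intro χ _
    exact alt_sum χ K hK
  refine ⟨?_, ?_, ?_, ?_⟩
  · intro a
    constructor
    · intro h
      by_contra ha
      obtain ⟨χ, h1, h2⟩ := hsep a ha
      unfold chRank at h
      rw [Finset.card_eq_zero] at h
      have : χ ∈ (univ : Finset (A →+ ZMod 2)).filter fun χ => IsChar χ ∧ χ a = 1 := by
        simp [h1, h2]
      rw [h] at this
      simp at this
    · intro h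
      subst h
      unfold chRank
      simp
  · intro a b hab
    unfold chRank
    rw [← Finset.card_union_of_disjoint]
    · congr 1
      ext χ
      simp only [Finset.mem_filter, Finset.mem_univ, true_and, Finset.mem_union, map_add]
      constructor
      · rintro ⟨h1, h2⟩
        rcases zmod2_cases (χ a) with h3 | h3
        · right
          rw [h3, zero_add] at h2
          exact ⟨h1, h2⟩
        · left
          exact ⟨h1, h3⟩
      · rintro (⟨h1, h2⟩ | ⟨h1, h2⟩)
        · refine ⟨h1, ?_⟩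
          rcases zmod2_cases (χ b) with h3 | h3
          · rw [h2, h3, add_zero]
          · exact absurd ⟨h2, h3⟩ (h1 a b hab)
        · refine ⟨h1, ?_⟩
          rcases zmod2_cases (χ a) with h3 | h3
          · rw [h2, h3, zero_add]
          · exact absurd ⟨h3, h2⟩ (h1 a b hab)
    · rw [Finset.disjoint_left]
      intro χ h1 h2
      simp only [Finset.mem_filter, Finset.mem_univ, true_and] at h1 h2
      exact h1.1 a b hab ⟨h1.2, h2.2⟩
  · intro K hK
    rw [key K hK]
    apply mul_nonneg (by positivity)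
    apply Finset.sum_nonneg
    intro χ _
    split_ifs <;> norm_num
  · intro K hK
    rw [key K hK]
    exact dvd_mul_right _ _

end Pool.Agent.KS6_71.AP
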