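import Mathlib

/-!
# Additive posets and ranks
-/

namespace Pool.Agent.KS6_71.AP

/-- An additive poset: an abelian group with a partial order satisfying `(∗)` and `(∗∗)`. -/
structure IsAdditivePoset (A : Type*) [AddCommGroup A] [PartialOrder A] : Prop where
  add_le : ∀ a b c : A, b ≤ a → c ≤ a → b + c ≤ a
  le_add : ∀ a b c : A, a ≤ b → a ≤ c → a ≤ a + b + c

/-- `a` and `b` are independent. -/
def Indep {A : Type*} [AddCommGroup A] [PartialOrder A] (a b : A) : Prop := a ≤ a + b

/-- A rank of an additive poset. -/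
structure IsRank {A : Type*} [AddCommGroup A] [PartialOrder A] (r : A → ℕ) : Prop where
  zero_iff : ∀ a, r a = 0 ↔ a = 0
  add : ∀ a b, Indep a b → r (a + b) = r a + r b
  nonneg : ∀ K : Finset A, K.Nonempty →
    0 ≤ ∑ J ∈ K.powerset with J.Nonempty, (-1 : ℤ) ^ (J.card + 1) * (r (∑ a ∈ J, a) : ℤ)
  dvd : ∀ K : Finset A, K.Nonempty → (2 : ℤ) ^ (K.card - 1) ∣
    ∑ J ∈ K.powerset with J.Nonempty, (-1 : ℤ) ^ (J.card + 1) * (r (∑ a ∈ J, a) : ℤ)

/-- `A` has an injective morphism (an order preserving group homomorphism) to the restricted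
additive powerset `2^I_f` of some set `I`. -/
def EmbedsInPowerset (A : Type) [AddCommGroup A] [PartialOrder A] : Prop :=
  ∃ (I : Type) (_ : DecidableEq I) (φ : A → Finset I), Function.Injective φ ∧
    (∀ a b, φ (a + b) = symmDiff (φ a) (φ b)) ∧ ∀ a b, a ≤ b → φ a ⊆ φ b

end Pool.Agent.KS6_71.AP
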