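import Pool.Agent.KS6_71.AP.Char

/-!
# Separation by characters is the same as an embedding in a powerset
-/

open Finset

namespace Pool.Agent.KS6_71.AP

variable {A : Type} [AddCommGroup A] [PartialOrder A]

theorem embeds_of_separated (h : IsAdditivePoset A) [Finite A] (hsep : Separated A) :
    EmbedsInPowerset A := by
  classical
  have : Finite (A →+ ZMod 2) := DFunLike.finite _
  let _ : Fintype (A →+ ZMod 2) := Fintype.ofFinite _
  let I := {χ : A →+ ZMod 2 // IsChar χ}
  refine ⟨I, inferInstance, fun a => univ.filter fun χ : I => χ.1 a = 1, ?_, ?_, ?_⟩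
  · intro a b hab
    by_contra hne
    have h0 : a + b ≠ 0 := by
      intro he
      apply hne
      have : a + b = b + b := by rw [he, two_eq_zero h]
      exact add_right_cancel this
    obtain ⟨χ, hχ, h1⟩ := hsep _ h0
    have h2 := congrArg (fun s : Finset I => (⟨χ, hχ⟩ : I) ∈ s) hab
    simp only [Finset.mem_filter, Finset.mem_univ, true_and, eq_iff_iff] at h2
    rw [map_add] at h1
    rcases zmod2_cases (χ a) with h3 | h3
    · have h4 : ¬ χ b = 1 := by
        rw [← h2, h3]
        decide
      rcases zmod2_cases (χ b) with h5 | h5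
      · rw [h3, h5] at h1
        exact absurd h1 (by decide)
      · exact h4 h5
    · have h4 := h2.1 h3
      rw [h3, h4] at h1
      exact absurd h1 (by decide)
  · intro a b
    ext χ
    simp only [Finset.mem_filter, Finset.mem_univ, true_and, Finset.mem_symmDiff, map_add]
    have : ∀ x y : ZMod 2, x + y = 1 ↔ (x = 1 ∧ ¬ y = 1 ∨ y = 1 ∧ ¬ x = 1) := by decide
    exact this _ _
  · intro a b hab χ hχ
    simp only [Finset.mem_filter, Finset.mem_univ, true_and] at hχ ⊢
    have e : a + (a + b) = b := by rw [← add_assoc, two_eq_zero h, zero_add]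
    have h1 : Indep a (a + b) := by
      unfold Indep
      rw [e]
      exact hab
    have h2 := χ.2 a (a + b) h1
    rcases zmod2_cases (χ.1 (a + b)) with h3 | h3
    · rw [← e, map_add, hχ, h3]
      rfl
    · exact absurd ⟨hχ, h3⟩ h2

theorem separated_of_embeds (he : EmbedsInPowerset A) : Separated A := by
  classical
  obtain ⟨I, _, φ, hinj, hadd, hmono⟩ := he
  have h0 : φ 0 = ∅ := by
    have := hadd 0 0
    rw [add_zero, symmDiff_self] at this
    exact this
  intro a ha
  have h1 : (φ a).Nonempty := by
    rw [Finset.nonempty_iff_ne_empty, ← h0]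
    exact fun h => ha (hinj h)
  obtain ⟨i, hi⟩ := h1
  let χ : A →+ ZMod 2 :=
    { toFun := fun x => if i ∈ φ x then 1 else 0
      map_zero' := by simp [h0]
      map_add' := by
        intro x y
        simp only [hadd, Finset.mem_symmDiff]
        by_cases hx : i ∈ φ x <;> by_cases hy : i ∈ φ y <;> simp [hx, hy]
        decide }
  have hχ : ∀ x, χ x = 1 ↔ i ∈ φ x := by
    intro x
    change (if i ∈ φ x then (1 : ZMod 2) else 0) = 1 ↔ _
    by_cases hx : i ∈ φ x <;> simp [hx]
  refine ⟨χ, ?_, (hχ a).2 hi⟩
  rintro b c hbc ⟨hb, hc⟩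
  rw [hχ] at hb hc
  have h2 := hmono _ _ hbc hb
  rw [hadd, Finset.mem_symmDiff] at h2
  rcases h2 with h2 | h2
  · exact h2.2 hc
  · exact h2.2 hb

end Pool.Agent.KS6_71.AP
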