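import Pool.Agent.KS6_71.AP.Char

/-!
# Additive posets with at most 8 elements
-/

open Finset

namespace Pool.Agent.KS6_71.AP

variable {A : Type*} [AddCommGroup A] [PartialOrder A]

lemma eq_of_add_eq_zero (h : IsAdditivePoset A) {a b : A} (hab : a + b = 0) : a = b := by
  have : a + b = b + b := by rw [hab, two_eq_zero h]
  exact add_right_cancel this

/-- separating a point from a subgroup -/
lemma exists_hom_sub (h : IsAdditivePoset A) (S : AddSubgroup A) (a : A) (ha : a ∉ S) :
    ∃ χ : A →+ ZMod 2, χ a = 1 ∧ ∀ p ∈ S, χ p = 0 := by
  let _ : Module (ZMod 2) A := AddCommGroup.zmodModule fun x => by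
    rw [two_nsmul]
    exact two_eq_zero h x
  have ha' : a ∉ AddSubgroup.toZModSubmodule 2 S := by simpa using ha
  obtain ⟨f, hf, hS⟩ := Submodule.exists_le_ker_of_notMem ha'
  refine ⟨f.toAddMonoidHom, ?_, ?_⟩
  · rcases zmod2_cases (f a) with h1 | h1
    · exact absurd h1 hf
    · exact h1
  · intro p hp
    have : p ∈ AddSubgroup.toZModSubmodule 2 S := by simpa using hp
    have := hS this
    simpa using this

/-- the elements independent of `a` -/
def indepSub (h : IsAdditivePoset A) (a : A) : AddSubgroup A where
  carrier := {p | Indep a p}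
  zero_mem' := by
    change a ≤ a + 0
    rw [add_zero]
  add_mem' := by
    intro p q hp hq
    change a ≤ a + (p + q)
    have h1 : a ≤ a + (a + p) + (a + q) := h.le_add a (a + p) (a + q) hp hq
    have e : a + (a + p) + (a + q) = a + (p + q) := by
      have h2 := two_eq_zero h a
      calc a + (a + p) + (a + q) = (a + a) + (a + (p + q)) := by abel
        _ = a + (p + q) := by rw [h2, zero_add]
    rwa [e] at h1
  neg_mem' := by
    intro p hp
    have e : -p = p := neg_eq_of_add_eq_zero_left (two_eq_zero h p)
    rw [e]
    exact hp

lemma mem_indepSub (h : IsAdditivePoset A) (a p : A) : p ∈ indepSub h a ↔ a ≤ a + p := Iff.rfl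

/-- the hom with prescribed values on two vectors -/
lemma exists_hom2 (h : IsAdditivePoset A) (a x w : A) (h1 : w ≠ 0) (h2 : w ≠ a) (h3 : w ≠ x)
    (h4 : w ≠ a + x) : ∃ χ : A →+ ZMod 2, χ w = 1 ∧ χ a = 0 ∧ χ x = 0 := by
  let S : AddSubgroup A :=
    { carrier := {0, a, x, a + x}
      zero_mem' := by simp
      add_mem' := by
        have ea := two_eq_zero h a
        have ex := two_eq_zero h x
        have e1 : a + (a + x) = x := by rw [← add_assoc, ea, zero_add]
        have e2 : x + (a + x) = a := by rw [add_left_comm, ex, add_zero]
        have e3 : a + x + a = x := by rw [add_comm, e1]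
        have e4 : a + x + x = a := by rw [add_assoc, ex, add_zero]
        have e5 : a + x + (a + x) = 0 := two_eq_zero h _
        have e6 : x + a = a + x := add_comm _ _
        rintro p q (rfl | rfl | rfl | rfl) (rfl | rfl | rfl | rfl) <;>
          simp_all
      neg_mem' := by
        intro p hp
        have e : -p = p := neg_eq_of_add_eq_zero_left (two_eq_zero h p)
        rw [e]
        exact hp }
  have hw : w ∉ S := by
    rintro (h | h | h | h)
    · exact h1 h
    · exact h2 h
    · exact h3 h
    · exact h4 h
  obtain ⟨χ, hχ, hS⟩ := exists_hom_sub h S w hw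
  exact ⟨χ, hχ, hS a (Or.inr (Or.inl rfl)), hS x (Or.inr (Or.inr (Or.inl rfl)))⟩

lemma add_cancel (h : IsAdditivePoset A) (x y : A) : x + (x + y) = y := by
  rw [← add_assoc, two_eq_zero h, zero_add]

lemma bad_pair (h : IsAdditivePoset A) (a : A) (χ : A →+ ZMod 2)
    (hP : ∀ p, Indep a p → χ p = 0) (hno : ¬ IsChar χ) :
    ∃ x w, x ≤ x + w ∧ w ≤ x + w ∧ χ x = 1 ∧ χ w = 1 ∧ ¬ a ≤ x ∧ ¬ a ≤ w ∧ x ≠ w := by
  unfold IsChar at hno
  push Not at hno
  obtain ⟨x, w, hxw, hx, hw⟩ := hno
  have h1 : x ≤ x + w := hxw
  have h2 : w ≤ x + w := by
    have := indep_symm h hxw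
    unfold Indep at this
    rwa [add_comm w x] at this
  refine ⟨x, w, h1, h2, hx, hw, ?_, ?_, ?_⟩
  · intro hax
    have h3 := h.le_add a x (x + w) hax (hax.trans h1)
    have e : a + x + (x + w) = a + w := by rw [add_assoc, add_cancel h]
    rw [e] at h3
    rw [hP w h3] at hw
    exact absurd hw (by decide)
  · intro haw
    have h3 := h.le_add a w (x + w) haw (haw.trans h2)
    have e : a + w + (x + w) = a + x := by
      rw [add_assoc, add_comm x w, add_cancel h]
    rw [e] at h3
    rw [hP x h3] at hx
    exact absurd hx (by decide)
  · intro he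
    subst he
    rw [two_eq_zero h] at h1
    have h3 : x = 0 := le_antisymm h1 (zero_le' h x)
    rw [h3, map_zero] at hx
    exact absurd hx (by decide)

lemma classify [Fintype A] (h : IsAdditivePoset A) (hc : Fintype.card A ≤ 8)
    (χ : A →+ ZMod 2) (a x w : A) (ha : χ a = 1) (hx : χ x = 1) (hw : χ w = 1)
    (hax : a ≠ x) (haw : a ≠ w) (hxw : x ≠ w) (y : A) (hy : χ y = 1) :
    y = a ∨ y = x ∨ y = w ∨ y = a + (x + w) := by
  classical
  set H := univ.filter fun z : A => χ z = 1 with hH
  set N := univ.filter fun z : A => ¬ χ z = 1 with hN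
  have hcard : H.card + N.card = Fintype.card A := by
    rw [hH, hN, Finset.card_filter_add_card_filter_not, Finset.card_univ]
  have hHN : H.card ≤ N.card := by
    apply Finset.card_le_card_of_injOn (fun z => z + a)
    · intro z hz
      simp only [hH, hN, Finset.coe_filter, Finset.mem_univ, true_and, Set.mem_ofPred_eq] at hz ⊢
      rw [map_add, hz, ha]
      decide
    · intro z _ z' _ he
      exact add_right_cancel he
  have hv : χ (a + (x + w)) = 1 := by
    rw [map_add, map_add, ha, hx, hw]
    decide
  have hva : a + (x + w) ≠ a := by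
    intro he
    have : x + w = 0 := by simpa using he
    exact hxw (eq_of_add_eq_zero h this)
  have hvx : a + (x + w) ≠ x := by
    intro he
    apply haw
    apply eq_of_add_eq_zero h
    have h1 : x + (a + w) = x + 0 := by
      rw [add_zero]
      rw [← he]
      rw [← he]
      have := add_cancel h x w
      nth_rewrite 1 [he]
      rw [add_left_comm]
    exact add_left_cancel h1
  have hvw : a + (x + w) ≠ w := by
    intro he
    apply hax
    apply eq_of_add_eq_zero h
    have h1 : (a + x) + w = 0 + w := by
      rw [zero_add, add_assoc]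
      exact he
    exact add_right_cancel h1
  have hsub : ({a, x, w, a + (x + w)} : Finset A) ⊆ H := by
    intro z hz
    simp only [Finset.mem_insert, Finset.mem_singleton] at hz
    simp only [hH, Finset.mem_filter, Finset.mem_univ, true_and]
    rcases hz with rfl | rfl | rfl | rfl
    · exact ha
    · exact hx
    · exact hw
    · exact hv
  have h4 : ({a, x, w, a + (x + w)} : Finset A).card = 4 := by
    rw [Finset.card_insert_of_notMem, Finset.card_insert_of_notMem,
      Finset.card_insert_of_notMem, Finset.card_singleton]
    · simpa using hvw.symm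
    · simp only [Finset.mem_insert, Finset.mem_singleton, not_or]
      exact ⟨hxw, hvx.symm⟩
    · simp only [Finset.mem_insert, Finset.mem_singleton, not_or]
      exact ⟨hax, haw, hva.symm⟩
  have heq : ({a, x, w, a + (x + w)} : Finset A) = H := by
    apply Finset.eq_of_subset_of_card_le hsub
    omega
  have hyH : y ∈ H := by simp [hH, hy]
  rw [← heq] at hyH
  simpa only [Finset.mem_insert, Finset.mem_singleton] using hyH

theorem separated_of_card [Fintype A] (h : IsAdditivePoset A) (hc : Fintype.card A ≤ 8) :
    Separated A := by
  intro a ha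
  by_contra hcon
  push Not at hcon
  have haP : a ∉ indepSub h a := by
    intro h1
    rw [mem_indepSub, two_eq_zero h] at h1
    exact ha (le_antisymm h1 (zero_le' h a))
  obtain ⟨χ, hχ, hP⟩ := exists_hom_sub h (indepSub h a) a haP
  have hP' : ∀ p, Indep a p → χ p = 0 := fun p hp => hP p hp
  obtain ⟨x, w, hxt, hwt, hx, hw, nax, naw, hxw⟩ :=
    bad_pair h a χ hP' (fun hch => hcon χ hch hχ)
  have hax : a ≠ x := fun he => nax (le_of_eq he)
  have haw : a ≠ w := fun he => naw (le_of_eq he)
  have hx0 : x ≠ 0 := by
    rintro rfl
    rw [map_zero] at hx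
    exact absurd hx (by decide)
  have hw0 : w ≠ 0 := by
    rintro rfl
    rw [map_zero] at hw
    exact absurd hw (by decide)
  have hcl := classify h hc χ a x w hχ hx hw hax haw hxw
  -- the elements with `χ y = 0`
  have hcl0 : ∀ y, χ y = 0 → y = 0 ∨ y = a + x ∨ y = a + w ∨ y = x + w := by
    intro y hy
    have h1 : χ (a + y) = 1 := by rw [map_add, hχ, hy, add_zero]
    rcases hcl _ h1 with h2 | h2 | h2 | h2
    · left
      simpa using h2
    · right; left
      rw [← h2, add_cancel h]
    · right; right; left
      rw [← h2, add_cancel h]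
    · right; right; right
      exact add_left_cancel h2
  have hPt : ∀ p, Indep a p → p = 0 ∨ p = x + w := by
    intro p hp
    rcases hcl0 p (hP' p hp) with h1 | h1 | h1 | h1
    · exact Or.inl h1
    · exfalso
      subst h1
      unfold Indep at hp
      rw [add_cancel h] at hp
      exact nax hp
    · exfalso
      subst h1
      unfold Indep at hp
      rw [add_cancel h] at hp
      exact naw hp
    · exact Or.inr h1
  have hxa_imp : x ≤ x + a → Indep a x := fun h1 => indep_symm h h1
  by_cases hav : a ≤ a + (x + w)
  · -- first case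
    have g1 : x ≠ x + w := by
      intro he
      apply hw0
      have : x + 0 = x + w := by rw [add_zero]; exact he
      exact (add_left_cancel this).symm
    have g2 : x ≠ a + (x + w) := by
      intro he
      apply haw
      apply eq_of_add_eq_zero h
      have h1 : x + (a + w) = x + 0 := by
        rw [add_zero, add_left_comm]
        exact he.symm
      exact add_left_cancel h1
    obtain ⟨g, gx, ga, gt⟩ := exists_hom2 h a (x + w) x hx0 hax.symm g1 g2
    have gw : g w = 1 := by
      rw [map_add, gx] at gt
      rcases zmod2_cases (g w) with h1 | h1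
      · rw [h1] at gt
        exact absurd gt (by decide)
      · exact h1
    have hχ' : (χ + g) a = 1 := by rw [AddMonoidHom.add_apply, hχ, ga, add_zero]
    have hPχ' : ∀ p, Indep a p → (χ + g) p = 0 := by
      intro p hp
      rcases hPt p hp with rfl | rfl
      · exact map_zero _
      · rw [AddMonoidHom.add_apply, gt, hP' _ hp, add_zero]
    obtain ⟨y, z, hy1, hz1, hy, hz, nay, naz, hyz⟩ :=
      bad_pair h a (χ + g) hPχ' (fun hch => hcon _ hch hχ')
    have hh : ∀ y, (χ + g) y = 1 → ¬ a ≤ y → y = a + x ∨ y = a + w := by
      intro y hy nay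
      rcases zmod2_cases (χ y) with h1 | h1
      · rcases hcl0 y h1 with rfl | rfl | rfl | rfl
        · rw [map_zero] at hy
          exact absurd hy (by decide)
        · exact Or.inl rfl
        · exact Or.inr rfl
        · rw [AddMonoidHom.add_apply, h1, gt] at hy
          exact absurd hy (by decide)
      · rcases hcl y h1 with rfl | rfl | rfl | rfl
        · exact absurd le_rfl nay
        · rw [AddMonoidHom.add_apply, h1, gx] at hy
          exact absurd hy (by decide)
        · rw [AddMonoidHom.add_apply, h1, gw] at hy
          exact absurd hy (by decide)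
        · exact absurd hav nay
    have hat : a ≤ x + w := by
      have e1 : a + x + (a + w) = x + w := by
        rw [add_add_add_comm, two_eq_zero h, zero_add]
      have e2 : a + w + (a + x) = x + w := by rw [add_comm, e1]
      have h3 : a + x ≤ x + w := by
        rcases hh y hy nay with rfl | rfl <;> rcases hh z hz naz with rfl | rfl
        · exact absurd rfl hyz
        · rwa [e1] at hy1
        · rwa [e2] at hz1
        · exact absurd rfl hyz
      have h4 := h.add_le (x + w) x (a + x) hxt h3
      rwa [add_comm a x, add_cancel h] at h4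
    have h5 := h.le_add a (x + w) (a + (x + w)) hat hav
    have e3 : a + (x + w) + (a + (x + w)) = 0 := two_eq_zero h _
    rw [e3] at h5
    exact ha (le_antisymm h5 (zero_le' h a))
  · -- second case
    have hP0 : ∀ p, Indep a p → p = 0 := by
      intro p hp
      rcases hPt p hp with h1 | h1
      · exact h1
      · subst h1
        exact absurd hp hav
    have nxa : ¬ x ≤ x + a := fun h1 => hx0 (hP0 x (hxa_imp h1))
    have g2 : w ≠ a + x := by
      intro he
      have h1 : χ w = 0 := by
        rw [he, map_add, hχ, hx]
        decide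
      rw [h1] at hw
      exact absurd hw (by decide)
    obtain ⟨g, gw, ga, gx⟩ := exists_hom2 h a x w hw0 haw.symm hxw.symm g2
    have hχ' : (χ + g) a = 1 := by rw [AddMonoidHom.add_apply, hχ, ga, add_zero]
    have hPχ' : ∀ p, Indep a p → (χ + g) p = 0 := by
      intro p hp
      rw [hP0 p hp]
      exact map_zero _
    obtain ⟨y, z, hy1, hz1, hy, hz, nay, naz, hyz⟩ :=
      bad_pair h a (χ + g) hPχ' (fun hch => hcon _ hch hχ')
    have hh : ∀ y, (χ + g) y = 1 → ¬ a ≤ y → y = x ∨ y = a + w ∨ y = x + w := by
      intro y hy nay
      rcases zmod2_cases (χ y) with h1 | h1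
      · rcases hcl0 y h1 with rfl | rfl | rfl | rfl
        · rw [map_zero] at hy
          exact absurd hy (by decide)
        · rw [AddMonoidHom.add_apply, h1, map_add, ga, gx] at hy
          exact absurd hy (by decide)
        · exact Or.inr (Or.inl rfl)
        · exact Or.inr (Or.inr rfl)
      · rcases hcl y h1 with rfl | rfl | rfl | rfl
        · exact absurd le_rfl nay
        · exact Or.inl rfl
        · rw [AddMonoidHom.add_apply, h1, gw] at hy
          exact absurd hy (by decide)
        · rw [AddMonoidHom.add_apply, h1, map_add, map_add, ga, gx, gw] at hy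
          exact absurd hy (by decide)
    -- the three possible pairs
    have c1 : ¬ x ≤ x + (a + w) := by
      intro h1
      have h2 := h.le_add x (x + w) (x + (a + w)) hxt h1
      have e : x + (x + w) + (x + (a + w)) = x + a := by
        rw [add_cancel h, add_left_comm w x, add_comm a w, add_cancel h]
      rw [e] at h2
      exact nxa h2
    have c2 : ¬ x + w ≤ w := by
      intro h1
      have h2 := le_antisymm h1 hwt
      apply hx0
      have : x + w = 0 + w := by rw [zero_add]; exact h2
      exact add_right_cancel this
    have c3 : ¬ x + w ≤ x + a := fun h1 => nxa (hxt.trans h1)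
    have e1 : x + (x + w) = w := add_cancel h x w
    have e2 : x + w + x = w := by rw [add_comm, e1]
    have e3 : a + w + (x + w) = x + a := by
      rw [add_comm x w, add_assoc, add_cancel h, add_comm]
    have e4 : x + w + (a + w) = x + a := by rw [add_comm, e3]
    have e5 : a + w + x = x + (a + w) := add_comm _ _
    rcases hh y hy nay with rfl | rfl | rfl <;> rcases hh z hz naz with rfl | rfl | rfl
    · exact hyz rfl
    · exact c1 hy1
    · rw [e1] at hz1
      exact c2 hz1
    · rw [e5] at hz1
      exact c1 hz1
    · exact hyz rfl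
    · rw [e3] at hz1
      exact c3 hz1
    · rw [e2] at hy1
      exact c2 hy1
    · rw [e4] at hy1
      exact c3 hy1
    · exact hyz rfl

end Pool.Agent.KS6_71.AP
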