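import Pool.Agent.KS6_71.AP.Char

/-!
# Additive posets of order `2 ^ n`, `n ≥ 4`, without a rank
-/

open Finset

namespace Pool.Agent.KS6_71.AP

/-- the group with 16 elements -/
abbrev B16 : Type := ZMod 2 × ZMod 2 × ZMod 2 × ZMod 2

/-- the number with binary digits `x` -/
def code (x : B16) : ℕ := x.1.val + 2 * x.2.1.val + 4 * x.2.2.1.val + 8 * x.2.2.2.val

/-- the spread order -/
def leB (x y : B16) : Bool :=
  x == 0 || x == y ||
  (code y == 14 && (code x == 1 || code x == 15)) ||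
  (code y == 13 && (code x == 4 || code x == 9)) ||
  (code y == 2 && (code x == 5 || code x == 7)) ||
  (code y == 12 && (code x == 6 || code x == 10)) ||
  (code y == 3 && (code x == 8 || code x == 11))

lemma leB_refl : ∀ x, leB x x = true := by decide +kernel

lemma leB_trans : ∀ x y z, leB x y = true → leB y z = true → leB x z = true := by decide +kernel

lemma leB_antisymm : ∀ x y, leB x y = true → leB y x = true → x = y := by decide +kernel

lemma leB_add : ∀ a b c : B16, leB b a = true → leB c a = true → leB (b + c) a = true := by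
  decide +kernel

lemma leB_add' : ∀ a b c : B16, leB a b = true → leB a c = true → leB a (a + b + c) = true := by
  decide +kernel

/-- the additive poset of order `2 ^ (4 + m)` -/
abbrev BM (m : ℕ) : Type := B16 × (Fin m → ZMod 2)

/-- its order -/
def leM (m : ℕ) (p q : BM m) : Prop := leB p.1 q.1 = true ∧ (p.2 = 0 ∨ p.2 = q.2)

/-- its order -/
@[reducible] def ordM (m : ℕ) : PartialOrder (BM m) where
  le := leM m
  le_refl p := ⟨leB_refl _, Or.inr rfl⟩
  le_trans p q r h1 h2 := by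
    refine ⟨leB_trans _ _ _ h1.1 h2.1, ?_⟩
    rcases h1.2 with h | h
    · exact Or.inl h
    · rw [h]
      exact h2.2
  le_antisymm p q h1 h2 := by
    refine Prod.ext (leB_antisymm _ _ h1.1 h2.1) ?_
    rcases h1.2 with h | h
    · rcases h2.2 with h' | h'
      · rw [h, h']
      · exact h'.symm
    · exact h

lemma vec_two (m : ℕ) (v : Fin m → ZMod 2) : v + v = 0 := by
  ext i
  have : ∀ z : ZMod 2, z + z = 0 := by decide
  exact this (v i)

lemma isAdditivePoset_BM (m : ℕ) :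
    @IsAdditivePoset (BM m) _ (ordM m) := by
  let _ := ordM m
  constructor
  · rintro a b c ⟨h1, h2⟩ ⟨h3, h4⟩
    refine ⟨leB_add _ _ _ h1 h3, ?_⟩
    change b.2 + c.2 = 0 ∨ b.2 + c.2 = a.2
    rcases h2 with h | h <;> rcases h4 with h' | h' <;> rw [h, h']
    · left; rw [add_zero]
    · right; rw [zero_add]
    · right; rw [add_zero]
    · left; exact vec_two m _
  · rintro a b c ⟨h1, h2⟩ ⟨h3, h4⟩
    refine ⟨leB_add' _ _ _ h1 h3, ?_⟩
    change a.2 = 0 ∨ a.2 = a.2 + b.2 + c.2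
    rcases h2 with h | h
    · exact Or.inl h
    · rcases h4 with h' | h'
      · exact Or.inl h'
      · right
        rw [← h, ← h', vec_two, zero_add]

lemma hom_vals : ∀ y z u : ZMod 2,
    ((1 + y + z + u : ZMod 2) = 1) ∨ (z = 1 ∧ 1 + u = 1) ∨ (1 + z = 1 ∧ 1 + y + z = 1) ∨
      (y + z = 1 ∧ y + u = 1) ∨ (u = 1 ∧ 1 + y + u = 1) := by decide

lemma not_separated_BM (m : ℕ) : ¬ @Separated (BM m) _ (ordM m) := by
  let _ := ordM m
  intro hsep
  have hne : (((1, 0, 0, 0), 0) : BM m) ≠ 0 := by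
    intro he
    have h2 : (1 : ZMod 2) = 0 := congrArg (fun p : BM m => p.1.1) he
    exact absurd h2 (by decide)
  obtain ⟨χ, hχ, h1⟩ := hsep ((1, 0, 0, 0), 0) hne
  -- the values on the first factor
  let ψ : B16 →+ ZMod 2 := χ.comp (AddMonoidHom.inl B16 (Fin m → ZMod 2))
  have hind : ∀ x y : B16, leB x (x + y) = true → ¬ (ψ x = 1 ∧ ψ y = 1) := by
    intro x y hxy hc
    apply hχ (x, 0) (y, 0) _ hc
    exact ⟨hxy, Or.inl rfl⟩
  have h1' : ψ (1, 0, 0, 0) = 1 := h1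
  have dec : ∀ x y z : B16, x = y + z → ψ x = ψ y + ψ z := by
    intro x y z he
    rw [he, map_add]
  have e9 : ψ (1, 0, 0, 1) = 1 + ψ (0, 0, 0, 1) := by
    have := dec (1, 0, 0, 1) (1, 0, 0, 0) (0, 0, 0, 1) (by decide +kernel)
    rwa [h1'] at this
  have e5 : ψ (1, 0, 1, 0) = 1 + ψ (0, 0, 1, 0) := by
    have := dec (1, 0, 1, 0) (1, 0, 0, 0) (0, 0, 1, 0) (by decide +kernel)
    rwa [h1'] at this
  have e3 : ψ (1, 1, 0, 0) = 1 + ψ (0, 1, 0, 0) := by
    have := dec (1, 1, 0, 0) (1, 0, 0, 0) (0, 1, 0, 0) (by decide +kernel)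
    rwa [h1'] at this
  have e7 : ψ (1, 1, 1, 0) = 1 + ψ (0, 1, 0, 0) + ψ (0, 0, 1, 0) := by
    have := dec (1, 1, 1, 0) (1, 1, 0, 0) (0, 0, 1, 0) (by decide +kernel)
    rwa [e3] at this
  have e15 : ψ (1, 1, 1, 1) = 1 + ψ (0, 1, 0, 0) + ψ (0, 0, 1, 0) + ψ (0, 0, 0, 1) := by
    have := dec (1, 1, 1, 1) (1, 1, 1, 0) (0, 0, 0, 1) (by decide +kernel)
    rwa [e7] at this
  have e6 : ψ (0, 1, 1, 0) = ψ (0, 1, 0, 0) + ψ (0, 0, 1, 0) :=
    dec _ _ _ (by decide +kernel)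
  have e10 : ψ (0, 1, 0, 1) = ψ (0, 1, 0, 0) + ψ (0, 0, 0, 1) :=
    dec _ _ _ (by decide +kernel)
  have e11 : ψ (1, 1, 0, 1) = 1 + ψ (0, 1, 0, 0) + ψ (0, 0, 0, 1) := by
    have := dec (1, 1, 0, 1) (1, 1, 0, 0) (0, 0, 0, 1) (by decide +kernel)
    rwa [e3] at this
  rcases hom_vals (ψ (0, 1, 0, 0)) (ψ (0, 0, 1, 0)) (ψ (0, 0, 0, 1)) with h | h | h | h | h
  · exact hind (1, 0, 0, 0) (1, 1, 1, 1) (by decide +kernel) ⟨h1', by rw [e15]; exact h⟩
  · exact hind (0, 0, 1, 0) (1, 0, 0, 1) (by decide +kernel) ⟨h.1, by rw [e9]; exact h.2⟩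
  · exact hind (1, 0, 1, 0) (1, 1, 1, 0) (by decide +kernel)
      ⟨by rw [e5]; exact h.1, by rw [e7]; exact h.2⟩
  · exact hind (0, 1, 1, 0) (0, 1, 0, 1) (by decide +kernel)
      ⟨by rw [e6]; exact h.1, by rw [e10]; exact h.2⟩
  · exact hind (0, 0, 0, 1) (1, 1, 0, 1) (by decide +kernel) ⟨h.1, by rw [e11]; exact h.2⟩

lemma card_BM (m : ℕ) : Nat.card (BM m) = 2 ^ (4 + m) := by
  rw [Nat.card_eq_fintype_card]
  simp only [Fintype.card_prod, ZMod.card, Fintype.card_fun, Fintype.card_fin]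
  ring

end Pool.Agent.KS6_71.AP
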